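import Pool.Agent.H23.BS

/-!
Group theory for the last step: an involution `z` and a normal subgroup `N` with trivial centraliser,
in a finite group without nontrivial solvable normal subgroups.
-/

set_option autoImplicit false

namespace Pool.Agent.H93.RS

variable {Γ : Type*} [Group Γ] [Finite Γ]

/-- a `p`-subgroup of a normal subgroup `N` which is normalised by `N` is trivial -/
theorem no_p (hns : ∀ A : Subgroup Γ, A.Normal → Group.IsSolvable A → A = ⊥) {N : Subgroup Γ}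
    (hN : N.Normal) {p : ℕ} [Fact p.Prime] {P : Subgroup Γ} (hPN : P ≤ N)
    (hP : ∀ n ∈ N, ∀ a ∈ P, n * a * n⁻¹ ∈ P) (hPp : IsPGroup p P) : P = ⊥ := by
  rw [eq_bot_iff]
  intro a ha
  have h1 : ∀ g : Γ, IsPGroup p (Subgroup.closure {a, g * a * g⁻¹}) := by
    intro g
    have hP2 : IsPGroup p (P.map (MulAut.conj g).toMonoidHom) := hPp.map _
    have hle : P.map (MulAut.conj g).toMonoidHom ≤ Subgroup.normalizer (P : Set Γ) := by
      rintro _ ⟨b, hb, rfl⟩
      have hbN : (MulAut.conj g).toMonoidHom b ∈ N := by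
        show g * b * g⁻¹ ∈ N
        exact hN.conj_mem b (hPN hb) g
      rw [Subgroup.mem_normalizer_iff]
      intro c
      constructor
      · intro hc
        exact hP _ hbN c hc
      · intro hc
        have h2 := hP _ (N.inv_mem hbN) _ hc
        rw [inv_inv] at h2
        convert h2 using 1
        group
    have hsup : IsPGroup p (P ⊔ P.map (MulAut.conj g).toMonoidHom : Subgroup Γ) :=
      IsPGroup.to_sup_of_normal_left' hPp hP2 hle
    refine hsup.to_le ?_
    rw [Subgroup.closure_le]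
    rintro x (rfl | rfl)
    · exact Subgroup.mem_sup_left ha
    · exact Subgroup.mem_sup_right ⟨a, ha, rfl⟩
  have h2 := Pool.Agent.H23.BS.baer_suzuki h1
  have h3 := hns (Subgroup.normalClosure {a}) inferInstance (by
    have : Group.IsNilpotent (Subgroup.normalClosure ({a} : Set Γ)) := h2.isNilpotent
    infer_instance)
  have h4 : a ∈ Subgroup.normalClosure ({a} : Set Γ) :=
    Subgroup.subset_normalClosure (Set.mem_singleton a)
  rw [h3] at h4
  exact h4

/-- two involutions whose product is a 2-element generate a 2-group -/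
theorem dihedral {M : Type*} [Group M] [Finite M] {z w : M} (hz : z * z = 1) (hw : w * w = 1)
    {k : ℕ} (hk : (z * w) ^ 2 ^ k = 1) : IsPGroup 2 (Subgroup.closure ({z, w} : Set M)) := by
  have hA : IsPGroup 2 (Subgroup.zpowers (z * w)) := by
    rw [IsPGroup.iff_orderOf]
    rintro ⟨x, m, rfl⟩
    have h1 : ((z * w) ^ m) ^ 2 ^ k = 1 := by
      rw [← zpow_natCast, ← zpow_mul, mul_comm, zpow_mul, zpow_natCast, hk, one_zpow]
    have h2 : orderOf ((z * w) ^ m) ∣ 2 ^ k := orderOf_dvd_of_pow_eq_one h1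
    obtain ⟨j, _, hj⟩ := (Nat.dvd_prime_pow Nat.prime_two).1 h2
    exact ⟨j, by rw [← hj]; exact (Subgroup.orderOf_mk _ _)⟩
  have hB : IsPGroup 2 (Subgroup.zpowers z) := by
    rw [IsPGroup.iff_orderOf]
    rintro ⟨x, m, rfl⟩
    have h1 : (z ^ m) ^ 2 ^ 1 = 1 := by
      rw [← zpow_natCast, ← zpow_mul, mul_comm, zpow_mul, zpow_natCast, pow_one, pow_two, hz,
        one_zpow]
    have h2 : orderOf (z ^ m) ∣ 2 ^ 1 := orderOf_dvd_of_pow_eq_one h1
    obtain ⟨j, _, hj⟩ := (Nat.dvd_prime_pow Nat.prime_two).1 h2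
    exact ⟨j, by rw [← hj]; exact (Subgroup.orderOf_mk _ _)⟩
  have hzi : z⁻¹ = z := inv_eq_of_mul_eq_one_left hz
  have hwi : w⁻¹ = w := inv_eq_of_mul_eq_one_left hw
  have hconj : ∀ x ∈ Subgroup.zpowers (z * w), z * x * z⁻¹ ∈ Subgroup.zpowers (z * w) := by
    rintro _ ⟨m, rfl⟩
    refine ⟨-m, ?_⟩
    show (z * w) ^ (-m) = z * (z * w) ^ m * z⁻¹
    rw [← conj_zpow]
    rw [zpow_neg, ← inv_zpow]
    congr 1
    rw [mul_inv_rev, hzi, hwi, ← mul_assoc z z w, hz, one_mul]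
  have hle : Subgroup.zpowers z ≤ Subgroup.normalizer (Subgroup.zpowers (z * w) : Set M) := by
    rw [Subgroup.zpowers_le, Subgroup.mem_normalizer_iff]
    intro x
    refine ⟨hconj x, fun hx => ?_⟩
    have h2 := hconj _ hx
    have h3 : z * (z * x * z⁻¹) * z⁻¹ = x := by
      calc z * (z * x * z⁻¹) * z⁻¹ = (z * z) * x * (z * z)⁻¹ := by group
        _ = x := by rw [hz]; group
    rwa [h3] at h2
  have hsup : IsPGroup 2 (Subgroup.zpowers (z * w) ⊔ Subgroup.zpowers z : Subgroup M) :=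
    IsPGroup.to_sup_of_normal_left' hA hB hle
  refine hsup.to_le ?_
  rw [Subgroup.closure_le]
  have hw1 : w = z * (z * w) := by rw [← mul_assoc, hz, one_mul]
  have hwm : w ∈ Subgroup.zpowers (z * w) ⊔ Subgroup.zpowers z := by
    have h5 := Subgroup.mul_mem (Subgroup.zpowers (z * w) ⊔ Subgroup.zpowers z)
      (Subgroup.mem_sup_right (Subgroup.mem_zpowers z))
      (Subgroup.mem_sup_left (Subgroup.mem_zpowers (z * w)))
    rwa [← hw1] at h5
  rintro x (rfl | rfl)
  · exact Subgroup.mem_sup_right (Subgroup.mem_zpowers x)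
  · exact hwm

/-- (D): some `z * (n * z * n⁻¹)`, `n ∈ N`, is not a 2-element -/
theorem exists_odd (hns : ∀ A : Subgroup Γ, A.Normal → Group.IsSolvable A → A = ⊥)
    {N : Subgroup Γ} (hN : N.Normal) {z : Γ} (hz : z * z = 1)
    (hzN : ¬ ∀ n ∈ N, z * n = n * z) :
    ∃ n ∈ N, ∃ b : Γ, b ≠ 1 ∧ Odd (orderOf b) ∧ z * b * z = b⁻¹ ∧
      b ∈ Subgroup.zpowers (z * (n * z * n⁻¹)) := by
  by_contra hcon
  push Not at hcon
  have hzi : z⁻¹ = z := inv_eq_of_mul_eq_one_left hz
  -- all products are 2-elements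
  have h2el : ∀ n ∈ N, ∃ k : ℕ, (z * (n * z * n⁻¹)) ^ 2 ^ k = 1 := by
    intro n hn
    set y := z * (n * z * n⁻¹) with hy
    obtain ⟨k, m, hm, hkm⟩ := Nat.exists_eq_two_pow_mul_odd (orderOf_pos y).ne'
    refine ⟨k, ?_⟩
    by_contra hb
    refine hcon n hn (y ^ 2 ^ k) hb ?_ ?_
      (Subgroup.pow_mem _ (Subgroup.mem_zpowers _) (2 ^ k))
    · have h3 : (y ^ 2 ^ k) ^ m = 1 := by rw [← pow_mul, ← hkm, pow_orderOf_eq_one]
      exact Odd.of_dvd_nat hm (orderOf_dvd_of_pow_eq_one h3)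
    · have h4 : z * y * z⁻¹ = y⁻¹ := by
        rw [hy, hzi]
        have h5 : (z * (n * z * n⁻¹))⁻¹ = n * z * n⁻¹ * z := by
          rw [mul_inv_rev, mul_inv_rev, mul_inv_rev, inv_inv, hzi]
          group
        rw [h5, ← mul_assoc z z, hz, one_mul]
      have h6 : z * y ^ 2 ^ k * z⁻¹ = (y⁻¹) ^ 2 ^ k := by rw [← h4, conj_pow]
      rw [hzi] at h6
      rw [h6, inv_pow]
  -- the subgroup generated by `N` and `z`
  let S : Subgroup Γ := N ⊔ Subgroup.zpowers z
  have hzS : z ∈ S := Subgroup.mem_sup_right (Subgroup.mem_zpowers z)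
  have hNS : N ≤ S := le_sup_left
  have hS : ∀ g ∈ S, ∃ n ∈ N, g * z * g⁻¹ = n * z * n⁻¹ := by
    intro g hg
    obtain ⟨n, hn, w, ⟨i, rfl⟩, rfl⟩ := Subgroup.mem_sup_of_normal_left.1 hg
    refine ⟨n, hn, ?_⟩
    show n * z ^ i * z * (n * z ^ i)⁻¹ = n * z * n⁻¹
    group
  let zz : S := ⟨z, hzS⟩
  have hbs : ∀ g : S, IsPGroup 2 (Subgroup.closure ({zz, g * zz * g⁻¹} : Set S)) := by
    rintro ⟨g, hg⟩
    obtain ⟨n, hn, hgn⟩ := hS g hg
    obtain ⟨k, hk⟩ := h2el n hn
    refine dihedral (k := k) (Subtype.ext hz) (Subtype.ext ?_) (Subtype.ext ?_)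
    · show g * z * g⁻¹ * (g * z * g⁻¹) = 1
      calc g * z * g⁻¹ * (g * z * g⁻¹) = g * (z * z) * g⁻¹ := by group
        _ = 1 := by rw [hz]; group
    · show (z * (g * z * g⁻¹)) ^ 2 ^ k = 1
      rw [hgn]
      exact hk
  have hP := Pool.Agent.H23.BS.baer_suzuki hbs
  set P := Subgroup.normalClosure ({zz} : Set S) with hPdef
  have hzP : zz ∈ P := Subgroup.subset_normalClosure (Set.mem_singleton zz)
  -- the intersection with `N`
  have hbot := no_p (p := 2) hns hN (P := P.map S.subtype ⊓ N) inf_le_right (by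
    rintro n hn _ ⟨⟨a, ha, rfl⟩, haN⟩
    refine ⟨⟨⟨n, hNS hn⟩ * a * ⟨n, hNS hn⟩⁻¹, ?_, rfl⟩, ?_⟩
    · exact (inferInstance : P.Normal).conj_mem a ha ⟨n, hNS hn⟩
    · exact N.mul_mem (N.mul_mem hn haN) (N.inv_mem hn))
    ((hP.map S.subtype).to_le inf_le_left)
  apply hzN
  intro n hn
  have h7 : z * (n * z * n⁻¹) ∈ P.map S.subtype ⊓ N := by
    refine ⟨⟨zz * (⟨n, hNS hn⟩ * zz * ⟨n, hNS hn⟩⁻¹), ?_, rfl⟩, ?_⟩
    · exact P.mul_mem hzP ((inferInstance : P.Normal).conj_mem zz hzP ⟨n, hNS hn⟩)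
    · have h8 := N.mul_mem (hN.conj_mem n hn z) (N.inv_mem hn)
      rw [hzi] at h8
      have h9 : z * (n * z * n⁻¹) = z * n * z * n⁻¹ := by group
      rw [h9]
      exact h8
  rw [hbot, Subgroup.mem_bot] at h7
  have h10 : n * z * n⁻¹ = z := by
    have h11 := eq_inv_of_mul_eq_one_right h7
    rw [h11, hzi]
  calc z * n = n * z * n⁻¹ * n := by rw [h10]
    _ = n * z := by group

/-- (C): the set of odd elements inverted by `z` is not stable under `N` -/
theorem not_stable (hns : ∀ A : Subgroup Γ, A.Normal → Group.IsSolvable A → A = ⊥)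
    {N : Subgroup Γ} (hN : N.Normal) {z : Γ} (hz : z * z = 1)
    (hzN : ¬ ∀ n ∈ N, z * n = n * z)
    (hK : ∀ n ∈ N, ∀ b : Γ, Odd (orderOf b) → z * b * z = b⁻¹ →
      z * (n * b * n⁻¹) * z = (n * b * n⁻¹)⁻¹) : False := by
  obtain ⟨n, hn, b, hb1, hbo, hbz, hbm⟩ := exists_odd hns hN hz hzN
  have hzi : z⁻¹ = z := inv_eq_of_mul_eq_one_left hz
  let F : Subgroup Γ := Subgroup.closure {y | ∃ m ∈ N, y = z * (m * z * m⁻¹)}
  have hgen : ∀ m ∈ N, z * (m * z * m⁻¹) ∈ F := fun m hm => Subgroup.subset_closure ⟨m, hm, rfl⟩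
  have hFN : F ≤ N := by
    rw [Subgroup.closure_le]
    rintro _ ⟨m, hm, rfl⟩
    have h8 := N.mul_mem (hN.conj_mem m hm z) (N.inv_mem hm)
    rw [hzi] at h8
    have h9 : z * (m * z * m⁻¹) = z * m * z * m⁻¹ := by group
    show z * (m * z * m⁻¹) ∈ N
    rw [h9]
    exact h8
  have hFn : ∀ m ∈ N, ∀ f ∈ F, m * f * m⁻¹ ∈ F := by
    intro m hm f hf
    induction hf using Subgroup.closure_induction with
    | mem y hy =>
      obtain ⟨l, hl, rfl⟩ := hy
      have h1 := F.mul_mem (F.inv_mem (hgen m hm)) (hgen (m * l) (N.mul_mem hm hl))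
      have h2 : (z * (m * z * m⁻¹))⁻¹ * (z * (m * l * z * (m * l)⁻¹))
          = m * (z⁻¹ * (l * z * l⁻¹)) * m⁻¹ := by group
      rw [h2, hzi] at h1
      exact h1
    | one => rw [mul_one, mul_inv_cancel]; exact F.one_mem
    | mul x y _ _ hx hy =>
      have h3 : m * (x * y) * m⁻¹ = (m * x * m⁻¹) * (m * y * m⁻¹) := by group
      rw [h3]
      exact F.mul_mem hx hy
    | inv x _ hx =>
      have h3 : m * x⁻¹ * m⁻¹ = (m * x * m⁻¹)⁻¹ := by group
      rw [h3]
      exact F.inv_mem hx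
  have hbF : b ∈ F := by
    obtain ⟨i, hi⟩ := hbm
    rw [← hi]
    exact F.zpow_mem (hgen n hn) i
  have hcom : ∀ f ∈ F, b * f = f * b := by
    intro f hf
    induction hf using Subgroup.closure_induction with
    | mem y hy =>
      obtain ⟨m, hm, rfl⟩ := hy
      have h0 : Odd (orderOf (m⁻¹ * b * m)) := by
        have h5 : orderOf (m⁻¹ * b * m) = orderOf b := by
          have h6 := orderOf_injective (MulAut.conj m⁻¹).toMonoidHom (MulAut.conj m⁻¹).injective b
          have h7 : (MulAut.conj m⁻¹).toMonoidHom b = m⁻¹ * b * m := by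
            show m⁻¹ * b * m⁻¹⁻¹ = _
            rw [inv_inv]
          rw [h7] at h6
          exact h6
        rw [h5]; exact hbo
      have h1 := hK m⁻¹ (N.inv_mem hm) b hbo hbz
      rw [inv_inv] at h1
      -- `(m z m⁻¹) b (m z m⁻¹) = b⁻¹`
      have h2 : (m * z * m⁻¹) * b * (m * z * m⁻¹) = b⁻¹ := by
        calc (m * z * m⁻¹) * b * (m * z * m⁻¹) = m * (z * (m⁻¹ * b * m) * z) * m⁻¹ := by group
          _ = b⁻¹ := by rw [h1]; group
      have hw : (m * z * m⁻¹) * (m * z * m⁻¹) = 1 := by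
        calc (m * z * m⁻¹) * (m * z * m⁻¹) = m * (z * z) * m⁻¹ := by group
          _ = 1 := by rw [hz]; group
      set w := m * z * m⁻¹ with hwd
      have h3 : w * b = b⁻¹ * w := by
        rw [← h2, mul_assoc (w * b) w w, hw, mul_one]
      have h4 : z * b⁻¹ = b * z := by
        have h5 : z * b = b⁻¹ * z := by rw [← hbz, mul_assoc (z * b) z z, hz, mul_one]
        calc z * b⁻¹ = (b * b⁻¹) * z * b⁻¹ := by group
          _ = b * (z * b) * b⁻¹ := by rw [h5]; group
          _ = b * z := by group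
      calc b * (z * w) = (z * b⁻¹) * w := by rw [h4]; group
        _ = z * (b⁻¹ * w) := by group
        _ = z * w * b := by rw [← h3]; group
    | one => rw [mul_one, one_mul]
    | mul x y _ _ hx hy =>
      rw [← mul_assoc, hx, mul_assoc, hy, mul_assoc]
    | inv x _ hx =>
      have h3 : x⁻¹ * (x * b) * x⁻¹ = x⁻¹ * (b * x) * x⁻¹ := by rw [hx]
      calc b * x⁻¹ = x⁻¹ * (x * b) * x⁻¹ := by group
        _ = x⁻¹ * b := by rw [h3]; group
  -- an element of prime order in the centre of `F`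
  have hord : orderOf b ≠ 1 := by rwa [Ne, orderOf_eq_one_iff]
  obtain ⟨p, hp, hpd⟩ := Nat.exists_prime_and_dvd hord
  have : Fact p.Prime := ⟨hp⟩
  let P : Subgroup Γ :=
    { carrier := {a | a ∈ F ∧ (∀ f ∈ F, a * f = f * a) ∧ a ^ p = 1}
      one_mem' := ⟨F.one_mem, fun f _ => by rw [one_mul, mul_one], one_pow p⟩
      mul_mem' := by
        rintro a c ⟨ha1, ha2, ha3⟩ ⟨hc1, hc2, hc3⟩
        refine ⟨F.mul_mem ha1 hc1, fun f hf => ?_, ?_⟩
        · rw [mul_assoc, hc2 f hf, ← mul_assoc, ha2 f hf, mul_assoc]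
        · have hac : Commute a c := ha2 c hc1
          rw [hac.mul_pow, ha3, hc3, one_mul]
      inv_mem' := by
        rintro a ⟨ha1, ha2, ha3⟩
        refine ⟨F.inv_mem ha1, fun f hf => ?_, by rw [inv_pow, ha3, inv_one]⟩
        have h3 := ha2 f hf
        calc a⁻¹ * f = a⁻¹ * (f * a) * a⁻¹ := by group
          _ = f * a⁻¹ := by rw [← h3]; group }
  have hPbot := no_p (p := p) hns hN (P := P) (fun a ha => hFN ha.1) (by
    rintro m hm a ⟨ha1, ha2, ha3⟩
    refine ⟨hFn m hm a ha1, fun f hf => ?_, ?_⟩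
    · have h4 := hFn m⁻¹ (N.inv_mem hm) f hf
      rw [inv_inv] at h4
      have h5 := ha2 _ h4
      calc m * a * m⁻¹ * f = m * (a * (m⁻¹ * f * m)) * m⁻¹ := by group
        _ = f * (m * a * m⁻¹) := by rw [h5]; group
    · rw [conj_pow, ha3, mul_one, mul_inv_cancel]) (by
    rw [IsPGroup.iff_orderOf]
    rintro ⟨a, ha1, ha2, ha3⟩
    have h2 : orderOf a ∣ p ^ 1 := by rw [pow_one]; exact orderOf_dvd_of_pow_eq_one ha3
    obtain ⟨j, _, hj⟩ := (Nat.dvd_prime_pow hp).1 h2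
    exact ⟨j, by rw [← hj]; exact (Subgroup.orderOf_mk _ _)⟩)
  obtain ⟨c, hc⟩ := hpd
  have ha : b ^ c ∈ P := by
    refine ⟨F.pow_mem hbF c, fun f hf => ?_, ?_⟩
    · have h3 : Commute b f := hcom f hf
      exact (h3.pow_left c).eq
    · rw [← pow_mul, mul_comm, ← hc, pow_orderOf_eq_one]
  rw [hPbot, Subgroup.mem_bot] at ha
  have h6 := orderOf_dvd_of_pow_eq_one ha
  have hc0 : 0 < c := by
    rcases Nat.eq_zero_or_pos c with h0 | h0
    · rw [h0, mul_zero] at hc
      exact absurd hc (orderOf_pos b).ne'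
    · exact h0
  have h7 := Nat.le_of_dvd hc0 h6
  have h8 : 2 * c ≤ p * c := Nat.mul_le_mul_right c hp.two_le
  omega

end Pool.Agent.H93.RS
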